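import Mathlib

/-!
Block construction in a separable Hilbert space with orthonormal basis `b`:
blocks `B k = [k^2, (k+1)^2)`, vectors `xv i = b i + u (sqrt i)` where `u k` is the normalised
sum of the basis vectors of block `k`.
-/

namespace Pool.Agent.P.MP_514f39_an

open Finset Filter Topology
open scoped InnerProductSpace

/-- Greedy ordering in an inner product space. -/
theorem greedy {𝕜 H : Type*} [RCLike 𝕜] [NormedAddCommGroup H] [InnerProductSpace 𝕜 H]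
    (v : ℕ → H) : ∀ (n : ℕ) (F : Finset ℕ) (w : H), F.card = n → w + ∑ i ∈ F, v i = 0 →
      ∃ g : ℕ → ℕ, Set.BijOn g (range n : Finset ℕ) F ∧
        ∀ m ≤ n, ‖w + ∑ j ∈ range m, v (g j)‖ ^ 2 ≤ ‖w‖ ^ 2 + ∑ i ∈ F, ‖v i‖ ^ 2 := by
  intro n
  induction n with
  | zero =>
    intro F w hF _
    rw [Finset.card_eq_zero] at hF
    subst hF
    refine ⟨id, by simp, ?_⟩
    intro m hm
    have : m = 0 := by omega
    subst this
    simp
  | succ n ih =>
    intro F w hF hw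
    have hne : F.Nonempty := by rw [← Finset.card_pos]; omega
    have hsum : ∑ i ∈ F, RCLike.re ⟪w, v i⟫_𝕜 ≤ ∑ _i ∈ F, (0 : ℝ) := by
      have h1 : ∑ i ∈ F, v i = -w := by
        rw [eq_neg_iff_add_eq_zero, add_comm]; exact hw
      rw [← map_sum, ← inner_sum, h1, inner_neg_right, map_neg, inner_self_eq_norm_sq]
      simp
    obtain ⟨i, hiF, hi⟩ := Finset.exists_le_of_sum_le hne hsum
    have hcard : (F.erase i).card = n := by rw [Finset.card_erase_of_mem hiF]; omega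
    have hw' : (w + v i) + ∑ j ∈ F.erase i, v j = 0 := by
      rw [add_assoc, Finset.add_sum_erase F v hiF]; exact hw
    obtain ⟨g, hg, hgb⟩ := ih (F.erase i) (w + v i) hcard hw'
    have hnorm : ‖w + v i‖ ^ 2 ≤ ‖w‖ ^ 2 + ‖v i‖ ^ 2 := by
      rw [norm_add_sq (𝕜 := 𝕜)]; linarith
    have hsplit : ∑ j ∈ F, ‖v j‖ ^ 2 = ‖v i‖ ^ 2 + ∑ j ∈ F.erase i, ‖v j‖ ^ 2 :=
      (Finset.add_sum_erase F (fun j => ‖v j‖ ^ 2) hiF).symm
    refine ⟨fun j => Nat.casesOn j i g, ⟨?_, ?_, ?_⟩, ?_⟩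
    · intro j hj
      cases j with
      | zero => simpa using hiF
      | succ j =>
        have hj' : j ∈ (range n : Finset ℕ) := by
          simp only [coe_range, Set.mem_Iio] at hj
          simp only [mem_range]; omega
        have := hg.1 (Finset.mem_coe.2 hj')
        exact Finset.mem_coe.2 (Finset.mem_of_mem_erase (Finset.mem_coe.1 this))
    · intro a ha c hc hac
      simp only [coe_range, Set.mem_Iio] at ha hc
      cases a with
      | zero =>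
        cases c with
        | zero => rfl
        | succ c =>
          exfalso
          have hc' : c ∈ ((range n : Finset ℕ) : Set ℕ) := by simp; omega
          have := Finset.mem_coe.1 (hg.1 hc')
          have h2 : i = g c := hac
          rw [← h2] at this
          simp at this
      | succ a =>
        have ha' : a ∈ ((range n : Finset ℕ) : Set ℕ) := by simp; omega
        cases c with
        | zero =>
          exfalso
          have := Finset.mem_coe.1 (hg.1 ha')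
          have h2 : g a = i := hac
          rw [h2] at this
          simp at this
        | succ c =>
          have hc' : c ∈ ((range n : Finset ℕ) : Set ℕ) := by simp; omega
          have h2 : g a = g c := hac
          rw [hg.2.1 ha' hc' h2]
    · intro y hy
      by_cases hyi : y = i
      · exact ⟨0, by simp, hyi.symm⟩
      · have : y ∈ ((F.erase i : Finset ℕ) : Set ℕ) := by
          simp only [coe_erase, Set.mem_sdiff, Set.mem_singleton_iff]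
          exact ⟨hy, hyi⟩
        obtain ⟨j, hj, hjy⟩ := hg.2.2 this
        refine ⟨j + 1, ?_, hjy⟩
        simp only [coe_range, Set.mem_Iio] at hj ⊢
        omega
    · intro m hm
      cases m with
      | zero =>
        simp only [range_zero, sum_empty, add_zero, le_add_iff_nonneg_right]
        positivity
      | succ m =>
        rw [Finset.sum_range_succ']
        have h1 := hgb m (by omega)
        have h2 : w + (∑ j ∈ range m, v (g j) + v i) = w + v i + ∑ j ∈ range m, v (g j) := by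
          abel
        show ‖w + (∑ j ∈ range m, v (g j) + v i)‖ ^ 2 ≤ _
        rw [h2]
        linarith

/-- The `k`-th block of indices. -/
def B (k : ℕ) : Finset ℕ := Finset.Ico (k * k) ((k + 1) * (k + 1))

theorem mem_B {k i : ℕ} : i ∈ B k ↔ Nat.sqrt i = k := by
  rw [B, Finset.mem_Ico, eq_comm, Nat.eq_sqrt]

theorem card_B (k : ℕ) : (B k).card = 2 * k + 1 := by
  rw [B, Nat.card_Ico]
  have : (k + 1) * (k + 1) = k * k + (2 * k + 1) := by ring
  omega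

theorem self_mem_B (i : ℕ) : i ∈ B (Nat.sqrt i) := mem_B.2 rfl

/-- The normalising constant of block `k`. -/
noncomputable def cc (k : ℕ) : ℝ := (Real.sqrt (2 * k + 1))⁻¹

theorem cc_pos (k : ℕ) : 0 < cc k := by
  unfold cc; positivity

theorem cc_sq (k : ℕ) : cc k ^ 2 * (2 * k + 1) = 1 := by
  unfold cc
  have h : (0 : ℝ) < 2 * k + 1 := by positivity
  rw [inv_pow, Real.sq_sqrt h.le, inv_mul_cancel₀ h.ne']

/-- The constant in the coordinate functionals. -/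
noncomputable def dd (k : ℕ) : ℝ := cc k / (1 + (2 * k + 1) * cc k)

theorem dd_pos (k : ℕ) : 0 < dd k := by
  unfold dd; have := cc_pos k; positivity

theorem dd_mul (k : ℕ) : dd k * (1 + (2 * k + 1) * cc k) = cc k := by
  unfold dd; have := cc_pos k; field_simp

theorem dd_le (k : ℕ) : dd k * (2 * k + 1) ≤ 1 := by
  have h1 := dd_mul k
  have h2 := cc_pos k
  have h3 := dd_pos k
  have h4 : cc k * (dd k * (2 * k + 1)) ≤ cc k * 1 := by nlinarith
  exact le_of_mul_le_mul_left h4 h2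

section
variable {𝕜 H : Type*} [RCLike 𝕜] [NormedAddCommGroup H] [InnerProductSpace 𝕜 H]
  (b : HilbertBasis ℕ 𝕜 H)

/-- Sum of the basis vectors of a block. -/
noncomputable def ww (k : ℕ) : H := ∑ j ∈ B k, b j

/-- The vectors of the system. -/
noncomputable def xv (i : ℕ) : H := b i + ((cc (Nat.sqrt i) : ℝ) : 𝕜) • ww b (Nat.sqrt i)

/-- The coordinate functionals of the system. -/
noncomputable def ff (i : ℕ) : H →L[𝕜] 𝕜 :=
  innerSL 𝕜 (b i) - ((dd (Nat.sqrt i) : ℝ) : 𝕜) • innerSL 𝕜 (ww b (Nat.sqrt i))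

theorem ff_apply (i : ℕ) (y : H) :
    ff b i y = ⟪b i, y⟫_𝕜 - ((dd (Nat.sqrt i) : ℝ) : 𝕜) * ⟪ww b (Nat.sqrt i), y⟫_𝕜 := by
  simp [ff]

theorem inner_b_b (i j : ℕ) : ⟪b i, b j⟫_𝕜 = if i = j then 1 else 0 :=
  orthonormal_iff_ite.1 b.orthonormal i j

theorem inner_b_ww (i k : ℕ) : ⟪b i, ww b k⟫_𝕜 = if Nat.sqrt i = k then 1 else 0 := by
  unfold ww
  rw [inner_sum]
  simp only [inner_b_b, Finset.sum_ite_eq, mem_B]

theorem inner_ww_b (k i : ℕ) : ⟪ww b k, b i⟫_𝕜 = if Nat.sqrt i = k then 1 else 0 := by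
  rw [← inner_conj_symm, inner_b_ww]
  split_ifs <;> simp

theorem inner_ww_ww (k l : ℕ) :
    ⟪ww b k, ww b l⟫_𝕜 = if k = l then (2 * k + 1 : 𝕜) else 0 := by
  have : ⟪ww b k, ww b l⟫_𝕜 = ∑ j ∈ B k, ⟪b j, ww b l⟫_𝕜 := by
    conv_lhs => rw [ww]
    rw [sum_inner]
  rw [this]
  have h2 : ∀ j ∈ B k, ⟪b j, ww b l⟫_𝕜 = if k = l then (1 : 𝕜) else 0 := by
    intro j hj
    rw [inner_b_ww, mem_B.1 hj]
  rw [Finset.sum_congr rfl h2, Finset.sum_const, card_B]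
  split_ifs <;> simp

theorem norm_ww_sq (k : ℕ) : ‖ww b k‖ ^ 2 = 2 * k + 1 := by
  rw [← inner_self_eq_norm_sq (𝕜 := 𝕜), inner_ww_ww]
  simp

theorem ff_xv (i j : ℕ) : ff b i (xv b j) = if i = j then 1 else 0 := by
  rw [ff_apply, xv, inner_add_right, inner_add_right, inner_smul_right, inner_smul_right,
    inner_b_b, inner_b_ww, inner_ww_b, inner_ww_ww]
  by_cases h : Nat.sqrt i = Nat.sqrt j
  · have h' := dd_mul (Nat.sqrt j)
    have h'' : ((dd (Nat.sqrt j) : ℝ) : 𝕜) * (1 + (2 * (Nat.sqrt j : 𝕜) + 1) *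
        ((cc (Nat.sqrt j) : ℝ) : 𝕜)) = ((cc (Nat.sqrt j) : ℝ) : 𝕜) := by
      exact_mod_cast congrArg (fun t : ℝ => (t : 𝕜)) h'
    rw [h]
    simp only [if_true]
    linear_combination (-1 : 𝕜) * h''
  · have h' : ¬ Nat.sqrt j = Nat.sqrt i := fun e => h e.symm
    simp [h, h']

theorem norm_xv_le (i : ℕ) : ‖xv b i‖ ≤ 2 := by
  have h1 : ‖b i‖ = 1 := b.orthonormal.1 i
  have h2 : ‖((cc (Nat.sqrt i) : ℝ) : 𝕜) • ww b (Nat.sqrt i)‖ = 1 := by
    have h3 : ‖((cc (Nat.sqrt i) : ℝ) : 𝕜) • ww b (Nat.sqrt i)‖ ^ 2 = 1 := by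
      rw [norm_smul, mul_pow, norm_ww_sq, RCLike.norm_ofReal, sq_abs, cc_sq]
    have h4 := norm_nonneg (((cc (Nat.sqrt i) : ℝ) : 𝕜) • ww b (Nat.sqrt i))
    nlinarith
  calc ‖xv b i‖ ≤ ‖b i‖ + ‖((cc (Nat.sqrt i) : ℝ) : 𝕜) • ww b (Nat.sqrt i)‖ := norm_add_le _ _
    _ = 2 := by rw [h1, h2]; norm_num

/-- Block component of a vector. -/
noncomputable def blk (k : ℕ) (y : H) : H := ∑ i ∈ B k, ⟪b i, y⟫_𝕜 • b i

theorem inner_ww_eq (k : ℕ) (y : H) : ⟪ww b k, y⟫_𝕜 = ∑ i ∈ B k, ⟪b i, y⟫_𝕜 := by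
  rw [ww, sum_inner]

theorem inner_ww_blk (k : ℕ) (y : H) : ⟪ww b k, blk b k y⟫_𝕜 = ⟪ww b k, y⟫_𝕜 := by
  rw [blk, inner_sum, inner_ww_eq]
  refine Finset.sum_congr rfl fun i hi => ?_
  rw [inner_smul_right, inner_ww_b, mem_B.1 hi]
  simp

theorem sum_ff_b (k : ℕ) (y : H) :
    ∑ i ∈ B k, ff b i y • b i = blk b k y - (((dd k : ℝ) : 𝕜) * ⟪ww b k, y⟫_𝕜) • ww b k := by
  rw [blk, ww, Finset.smul_sum, ← Finset.sum_sub_distrib]
  refine Finset.sum_congr rfl fun i hi => ?_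
  rw [ff_apply, mem_B.1 hi, sub_smul, ww]

theorem sum_ff (k : ℕ) (y : H) :
    ∑ i ∈ B k, ff b i y = (1 - (2 * k + 1) * ((dd k : ℝ) : 𝕜)) * ⟪ww b k, y⟫_𝕜 := by
  have h : ∀ i ∈ B k, ff b i y = ⟪b i, y⟫_𝕜 - ((dd k : ℝ) : 𝕜) * ⟪ww b k, y⟫_𝕜 := by
    intro i hi
    rw [ff_apply, mem_B.1 hi]
  rw [Finset.sum_congr rfl h, Finset.sum_sub_distrib, ← inner_ww_eq, Finset.sum_const, card_B]
  simp only [nsmul_eq_mul]
  push_cast
  ring

theorem sum_ff_xv (k : ℕ) (y : H) : ∑ i ∈ B k, ff b i y • xv b i = blk b k y := by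
  have h : ∀ i ∈ B k, ff b i y • xv b i =
      ff b i y • b i + ff b i y • (((cc k : ℝ) : 𝕜) • ww b k) := by
    intro i hi
    rw [xv, mem_B.1 hi, smul_add]
  rw [Finset.sum_congr rfl h, Finset.sum_add_distrib, sum_ff_b, ← Finset.sum_smul, sum_ff,
    smul_smul]
  have h' := dd_mul k
  have h'' : ((dd k : ℝ) : 𝕜) * (1 + (2 * (k : 𝕜) + 1) * ((cc k : ℝ) : 𝕜)) = ((cc k : ℝ) : 𝕜) := by
    exact_mod_cast congrArg (fun t : ℝ => (t : 𝕜)) h'
  have h3 : (1 - (2 * k + 1) * ((dd k : ℝ) : 𝕜)) * ⟪ww b k, y⟫_𝕜 * ((cc k : ℝ) : 𝕜) =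
      ((dd k : ℝ) : 𝕜) * ⟪ww b k, y⟫_𝕜 := by
    linear_combination (-⟪ww b k, y⟫_𝕜) * h''
  rw [h3]
  abel

theorem norm_sum_b_sq (F : Finset ℕ) (a : ℕ → 𝕜) :
    ‖∑ i ∈ F, a i • b i‖ ^ 2 = ∑ i ∈ F, ‖a i‖ ^ 2 := by
  rw [← inner_self_eq_norm_sq (𝕜 := 𝕜), b.orthonormal.inner_sum, map_sum]
  refine Finset.sum_congr rfl fun i _ => ?_
  rw [RCLike.conj_mul]
  norm_cast

theorem bessel (k : ℕ) (y : H) : ∑ i ∈ B k, ‖ff b i y • xv b i‖ ^ 2 ≤ 16 * ‖blk b k y‖ ^ 2 := by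
  have h1 : ‖(((dd k : ℝ) : 𝕜) * ⟪ww b k, y⟫_𝕜) • ww b k‖ ≤ ‖blk b k y‖ := by
    rw [norm_smul, norm_mul, RCLike.norm_ofReal, abs_of_pos (dd_pos k), ← inner_ww_blk]
    have h2 := norm_inner_le_norm (𝕜 := 𝕜) (ww b k) (blk b k y)
    have h3 := norm_ww_sq b k
    have h4 := dd_le k
    have h5 := dd_pos k
    have h6 := norm_nonneg (ww b k)
    have h7 := norm_nonneg (blk b k y)
    calc dd k * ‖⟪ww b k, blk b k y⟫_𝕜‖ * ‖ww b k‖
        ≤ dd k * (‖ww b k‖ * ‖blk b k y‖) * ‖ww b k‖ := by gcongr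
      _ = (dd k * ‖ww b k‖ ^ 2) * ‖blk b k y‖ := by ring
      _ ≤ 1 * ‖blk b k y‖ := by rw [h3]; gcongr
      _ = ‖blk b k y‖ := one_mul _
  have h2 : ‖∑ i ∈ B k, ff b i y • b i‖ ≤ 2 * ‖blk b k y‖ := by
    rw [sum_ff_b]
    have := norm_sub_le (blk b k y) ((((dd k : ℝ) : 𝕜) * ⟪ww b k, y⟫_𝕜) • ww b k)
    linarith
  have h3 : ∑ i ∈ B k, ‖ff b i y‖ ^ 2 ≤ 4 * ‖blk b k y‖ ^ 2 := by
    rw [← norm_sum_b_sq b]
    have := norm_nonneg (∑ i ∈ B k, ff b i y • b i)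
    nlinarith
  calc ∑ i ∈ B k, ‖ff b i y • xv b i‖ ^ 2 ≤ ∑ i ∈ B k, 4 * ‖ff b i y‖ ^ 2 := by
        refine Finset.sum_le_sum fun i _ => ?_
        rw [norm_smul, mul_pow]
        have h4 := norm_xv_le b i
        have h5 := norm_nonneg (xv b i)
        have h6 : ‖xv b i‖ ^ 2 ≤ 4 := by nlinarith
        have h7 := sq_nonneg ‖ff b i y‖
        nlinarith
    _ = 4 * ∑ i ∈ B k, ‖ff b i y‖ ^ 2 := by rw [Finset.mul_sum]
    _ ≤ 16 * ‖blk b k y‖ ^ 2 := by linarith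

end

end Pool.Agent.P.MP_514f39_an
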