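import Pool.Agent.P.MP_514f39_an.Blocks

namespace Pool.Agent.P.MP_514f39_an

open Finset Filter Topology
open scoped InnerProductSpace

/-- Gluing block bijections into a permutation of the naturals. -/
theorem glue (g : ℕ → ℕ → ℕ)
    (hg : ∀ k, Set.BijOn (g k) (range (2 * k + 1) : Finset ℕ) (B k)) :
    Function.Bijective (fun j => g (Nat.sqrt j) (j - Nat.sqrt j * Nat.sqrt j)) := by
  have hpos : ∀ j, j - Nat.sqrt j * Nat.sqrt j ∈
      ((range (2 * Nat.sqrt j + 1) : Finset ℕ) : Set ℕ) := by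
    intro j
    have h1 := Nat.lt_succ_sqrt j
    have h2 := Nat.sqrt_le j
    simp only [coe_range, Set.mem_Iio]
    have : Nat.succ (Nat.sqrt j) * Nat.succ (Nat.sqrt j) =
      Nat.sqrt j * Nat.sqrt j + (2 * Nat.sqrt j + 1) := by
      simp only [Nat.succ_eq_add_one]; ring
    omega
  have hblk : ∀ j, Nat.sqrt (g (Nat.sqrt j) (j - Nat.sqrt j * Nat.sqrt j)) = Nat.sqrt j := by
    intro j
    exact mem_B.1 (Finset.mem_coe.1 ((hg _).1 (hpos j)))
  constructor
  · intro j1 j2 h
    simp only at h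
    have hk : Nat.sqrt j1 = Nat.sqrt j2 := by rw [← hblk j1, ← hblk j2, h]
    have h1 := hpos j1
    have h2 := hpos j2
    rw [hk] at h h1
    have h3 := (hg _).2.1 h1 h2 h
    have h4 := Nat.sqrt_le j1
    have h5 := Nat.sqrt_le j2
    rw [hk] at h4
    omega
  · intro i
    obtain ⟨r, hr, hri⟩ := (hg (Nat.sqrt i)).2.2 (Finset.mem_coe.2 (self_mem_B i))
    simp only [coe_range, Set.mem_Iio] at hr
    have hs : Nat.sqrt (Nat.sqrt i * Nat.sqrt i + r) = Nat.sqrt i := by
      apply Nat.sqrt_add_eq; omega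
    refine ⟨Nat.sqrt i * Nat.sqrt i + r, ?_⟩
    simp only [hs, Nat.add_sub_cancel_left, hri]

section
variable {𝕜 H : Type*} [RCLike 𝕜] [NormedAddCommGroup H] [InnerProductSpace 𝕜 H]
  (b : HilbertBasis ℕ 𝕜 H)

theorem sq_succ (k : ℕ) : (k + 1) * (k + 1) = k * k + (2 * k + 1) := by ring

/-- Orthogonal partial sums. -/
noncomputable def PS (y : H) (N : ℕ) : H := ∑ i ∈ range N, ⟪b i, y⟫_𝕜 • b i

theorem PS_succ (y : H) (k : ℕ) : PS b y ((k + 1) * (k + 1)) = PS b y (k * k) + blk b k y := by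
  unfold PS blk B
  rw [Finset.sum_range_add_sum_Ico _ (by nlinarith)]

theorem tendsto_PS (y : H) : Tendsto (PS b y) atTop (𝓝 y) := by
  have h := (b.hasSum_repr y).tendsto_sum_nat
  simp only [HilbertBasis.repr_apply_apply] at h
  exact h

theorem tendsto_sq : Tendsto (fun k : ℕ => k * k) atTop atTop :=
  tendsto_atTop_mono (fun k => Nat.le_mul_self k) tendsto_id

theorem tendsto_sqrt : Tendsto Nat.sqrt atTop atTop := by
  rw [Filter.tendsto_atTop_atTop]
  intro k
  exact ⟨k * k, fun m hm => Nat.le_sqrt.2 hm⟩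

theorem tendsto_blk (y : H) : Tendsto (fun k => blk b k y) atTop (𝓝 0) := by
  have h1 := (tendsto_PS b y).comp tendsto_sq
  have h2 := h1.comp (tendsto_add_atTop_nat 1)
  have h3 := h2.sub h1
  rw [sub_self] at h3
  refine h3.congr fun k => ?_
  simp only [Function.comp]
  rw [PS_succ]; abel

theorem exists_expansion (y : H) : ∃ σ : ℕ ≃ ℕ,
    Tendsto (fun m => ∑ j ∈ range m, ff b (σ j) y • xv b (σ j)) atTop (𝓝 y) := by
  have hex : ∀ k, ∃ g : ℕ → ℕ, Set.BijOn g (range (2 * k + 1) : Finset ℕ) (B k) ∧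
      ∀ m ≤ 2 * k + 1, ‖-blk b k y + ∑ j ∈ range m, ff b (g j) y • xv b (g j)‖ ^ 2 ≤
        ‖-blk b k y‖ ^ 2 + ∑ i ∈ B k, ‖ff b i y • xv b i‖ ^ 2 := by
    intro k
    exact greedy (𝕜 := 𝕜) (fun i => ff b i y • xv b i) (2 * k + 1) (B k) (-blk b k y) (card_B k)
      (by rw [sum_ff_xv]; abel)
  choose g hg hgb using hex
  refine ⟨Equiv.ofBijective _ (glue g hg), ?_⟩
  simp only [Equiv.ofBijective_apply]
  set v : ℕ → H := fun i => ff b i y • xv b i with hv
  set σ : ℕ → ℕ := fun j => g (Nat.sqrt j) (j - Nat.sqrt j * Nat.sqrt j) with hσ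
  have hσv : ∀ k r, r < 2 * k + 1 → σ (k * k + r) = g k r := by
    intro k r hr
    have hs : Nat.sqrt (k * k + r) = k := by apply Nat.sqrt_add_eq; omega
    simp only [hσ, hs, Nat.add_sub_cancel_left]
  have hpart : ∀ k r, r ≤ 2 * k + 1 → ∑ j ∈ range (k * k + r), v (σ j) =
      ∑ j ∈ range (k * k), v (σ j) + ∑ j ∈ range r, v (g k j) := by
    intro k r hr
    rw [Finset.sum_range_add]
    congr 1
    refine Finset.sum_congr rfl fun j hj => ?_
    rw [hσv k j (by simp only [mem_range] at hj; omega)]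
  have hfull : ∀ k, ∑ j ∈ range (2 * k + 1), v (g k j) = blk b k y := by
    intro k
    rw [← sum_ff_xv]
    exact Finset.sum_nbij (g k) (fun a ha => Finset.mem_coe.1 ((hg k).1 (Finset.mem_coe.2 ha)))
      (hg k).2.1 (hg k).2.2 (fun _ _ => rfl)
  have hsq : ∀ k, ∑ j ∈ range (k * k), v (σ j) = PS b y (k * k) := by
    intro k
    induction k with
    | zero => simp [PS]
    | succ k ih => rw [PS_succ, sq_succ, hpart k _ le_rfl, ih, hfull]
  have hbound : ∀ m, ‖∑ j ∈ range m, v (σ j) - PS b y ((Nat.sqrt m + 1) * (Nat.sqrt m + 1))‖ ≤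
      5 * ‖blk b (Nat.sqrt m) y‖ := by
    intro m
    set k := Nat.sqrt m with hk
    have h1 : k * k ≤ m := Nat.sqrt_le m
    have h2 : m < (k + 1) * (k + 1) := Nat.lt_succ_sqrt m
    rw [sq_succ] at h2
    have h3 : m = k * k + (m - k * k) := by omega
    have h4 := hgb k (m - k * k) (by omega)
    have h5 := bessel b k y
    rw [norm_neg] at h4
    have h6 : ∑ j ∈ range m, v (σ j) - PS b y ((k + 1) * (k + 1)) =
        -blk b k y + ∑ j ∈ range (m - k * k), v (g k j) := by
      conv_lhs => rw [h3]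
      rw [hpart k _ (by omega), hsq, PS_succ]
      abel
    rw [h6]
    have h7 := norm_nonneg (blk b k y)
    apply le_of_sq_le_sq _ (by positivity)
    nlinarith
  have h1 : Tendsto (fun m => PS b y ((Nat.sqrt m + 1) * (Nat.sqrt m + 1))) atTop (𝓝 y) :=
    (((tendsto_PS b y).comp tendsto_sq).comp (tendsto_add_atTop_nat 1)).comp tendsto_sqrt
  have h2 : Tendsto (fun m => 5 * ‖blk b (Nat.sqrt m) y‖) atTop (𝓝 0) := by
    have := (((tendsto_blk b y).comp tendsto_sqrt).norm).const_mul 5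
    simpa using this
  have h3 := squeeze_zero_norm hbound h2
  have h4 := h3.add h1
  simpa using h4

theorem coeff_unique (y : H) (a : ℕ → 𝕜) (σ : ℕ ≃ ℕ)
    (h : Tendsto (fun m => ∑ j ∈ range m, a j • xv b (σ j)) atTop (𝓝 y)) (j : ℕ) :
    a j = ff b (σ j) y := by
  have h1 := ((ff b (σ j)).continuous.tendsto y).comp h
  have h2 : ∀ᶠ m in atTop, ((ff b (σ j)) ∘ fun m => ∑ i ∈ range m, a i • xv b (σ i)) m = a j := by
    filter_upwards [eventually_gt_atTop j] with m hm
    simp only [Function.comp, map_sum, map_smul, ff_xv, EmbeddingLike.apply_eq_iff_eq,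
      smul_eq_mul, mul_ite, mul_one, mul_zero, Finset.sum_ite_eq, mem_range, hm, if_true]
  exact tendsto_nhds_unique (tendsto_const_nhds.congr' (EventuallyEq.symm h2)) h1

theorem minimal (m : ℕ) :
    xv b m ∉ closure (Submodule.span 𝕜 (xv b '' {n | n ≠ m}) : Set H) := by
  intro h
  have h1 : (Submodule.span 𝕜 (xv b '' {n | n ≠ m}) : Set H) ⊆ {y | ff b m y = 0} := by
    have : Submodule.span 𝕜 (xv b '' {n | n ≠ m}) ≤ LinearMap.ker (ff b m).toLinearMap := by
      rw [Submodule.span_le]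
      rintro _ ⟨n, hn, rfl⟩
      simp only [SetLike.mem_coe, LinearMap.mem_ker, ContinuousLinearMap.coe_coe, ff_xv]
      rw [if_neg (fun e => hn e.symm)]
    exact this
  have h2 : IsClosed {y | ff b m y = 0} := isClosed_eq (ff b m).continuous continuous_const
  have h3 := h2.closure_subset_iff.2 h1 h
  simp [ff_xv] at h3

include b in
theorem separable : TopologicalSpace.SeparableSpace H := by
  rw [← TopologicalSpace.isSeparable_univ_iff]
  have h1 : TopologicalSpace.IsSeparable (Set.range b) := (Set.countable_range _).isSeparable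
  have h2 := (h1.span (R := 𝕜)).closure
  refine h2.mono fun y _ => ?_
  have h3 : y ∈ (Submodule.span 𝕜 (Set.range b)).topologicalClosure := by
    rw [b.dense_span]; trivial
  exact h3

theorem norm_sum_xv_ge (k : ℕ) (A : Finset ℕ) (hA : A ⊆ B k) :
    (A.card : ℝ) ≤ ‖∑ i ∈ A, xv b i‖ := by
  have h1 : ⟪((cc k : ℝ) : 𝕜) • ww b k, ∑ i ∈ A, xv b i⟫_𝕜 =
      ((A.card * (cc k + 1) : ℝ) : 𝕜) := by
    rw [inner_sum]
    have : ∀ i ∈ A, ⟪((cc k : ℝ) : 𝕜) • ww b k, xv b i⟫_𝕜 = ((cc k + 1 : ℝ) : 𝕜) := by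
      intro i hi
      have hk := mem_B.1 (hA hi)
      rw [xv, hk, inner_smul_left, inner_add_right, inner_smul_right, inner_ww_b, inner_ww_ww,
        if_pos hk, if_pos rfl]
      have h' : ((cc k : ℝ) : 𝕜) ^ 2 * (2 * k + 1) = 1 := by
        exact_mod_cast congrArg (fun t : ℝ => (t : 𝕜)) (cc_sq k)
      simp only [RCLike.conj_ofReal]
      push_cast
      linear_combination h'
    rw [Finset.sum_congr rfl this, Finset.sum_const, nsmul_eq_mul]
    push_cast
    ring
  have h2 : ‖((cc k : ℝ) : 𝕜) • ww b k‖ = 1 := by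
    have h3 : ‖((cc k : ℝ) : 𝕜) • ww b k‖ ^ 2 = 1 := by
      rw [norm_smul, mul_pow, norm_ww_sq, RCLike.norm_ofReal, sq_abs, cc_sq]
    have h4 := norm_nonneg (((cc k : ℝ) : 𝕜) • ww b k)
    nlinarith
  have h3 := norm_inner_le_norm (𝕜 := 𝕜) (((cc k : ℝ) : 𝕜) • ww b k) (∑ i ∈ A, xv b i)
  rw [h1, h2, one_mul, RCLike.norm_ofReal] at h3
  have h4 := cc_pos k
  have h5 : (0 : ℝ) ≤ A.card := Nat.cast_nonneg _
  have h6 := le_abs_self ((A.card : ℝ) * (cc k + 1))
  nlinarith

theorem not_basis [CompleteSpace H] (τ : ℕ ≃ ℕ)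
    (h : ∀ y : H, Tendsto (fun m => ∑ j ∈ range m, ff b (τ j) y • xv b (τ j)) atTop (𝓝 y)) :
    False := by
  classical
  let P : ℕ → H →L[𝕜] H := fun m => ∑ j ∈ range m, (ff b (τ j)).smulRight (xv b (τ j))
  have hP : ∀ m y, P m y = ∑ j ∈ range m, ff b (τ j) y • xv b (τ j) := by
    intro m y
    simp [P, ContinuousLinearMap.smulRight_apply]
  obtain ⟨C, hC⟩ : ∃ C, ∀ m, ‖P m‖ ≤ C := by
    apply banach_steinhaus
    intro y
    obtain ⟨C, hC⟩ := (h y).norm.bddAbove_range
    refine ⟨C, fun m => ?_⟩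
    rw [hP]
    exact hC ⟨m, rfl⟩
  have hC0 : 0 ≤ C := (norm_nonneg _).trans (hC 0)
  obtain ⟨k, hk⟩ := exists_nat_gt (2 * C ^ 2)
  -- cut the block `B k` into the first `k` indices in the order `τ` and the rest
  let p : ℕ → Prop := fun j => τ j ∈ B k
  have hfin : {j | p j} = (((B k).map τ.symm.toEmbedding : Finset ℕ) : Set ℕ) := by
    ext j
    simp [p]
  have hcount : Nat.count p (Nat.nth p k) = k := by
    apply Nat.count_nth
    intro hf
    have : hf.toFinset = (B k).map τ.symm.toEmbedding := by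
      apply Finset.coe_injective
      rw [Set.Finite.coe_toFinset, hfin]
    rw [this, Finset.card_map, card_B]
    omega
  set m := Nat.nth p k with hm
  let A : Finset ℕ := (B k).filter (fun i => τ.symm i < m)
  have hAcard : A.card = k := by
    rw [← hcount, Nat.count_eq_card_filter_range]
    apply Finset.card_bij (fun i _ => τ.symm i)
    · intro i hi
      simp only [A, mem_filter] at hi
      simp [p, hi.1, hi.2]
    · intro i _ j _ hij
      exact τ.symm.injective hij
    · intro j hj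
      simp only [mem_filter, mem_range, p] at hj
      exact ⟨τ j, by simp [A, hj.1, hj.2], by simp⟩
  have hAB : A ⊆ B k := Finset.filter_subset _ _
  have hrest : k ≤ (B k \ A).card := by
    rw [Finset.card_sdiff_of_subset hAB, card_B, hAcard]; omega
  obtain ⟨A', hA'sub, hA'card⟩ := Finset.exists_subset_card_eq hrest
  have hA'B : A' ⊆ B k := hA'sub.trans Finset.sdiff_subset
  have hdisj : Disjoint A A' := Finset.disjoint_of_subset_right hA'sub Finset.disjoint_sdiff
  let y : H := ∑ i ∈ A, xv b i - ∑ i ∈ A', xv b i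
  have hsumx : ∀ S : Finset ℕ, S ⊆ B k → ∑ i ∈ S, xv b i =
      ∑ i ∈ S, b i + S.card • (((cc k : ℝ) : 𝕜) • ww b k) := by
    intro S hS
    rw [← Finset.sum_const, ← Finset.sum_add_distrib]
    refine Finset.sum_congr rfl fun i hi => ?_
    rw [xv, mem_B.1 (hS hi)]
  have hy : y = ∑ i ∈ A ∪ A', (if i ∈ A then (1 : 𝕜) else -1) • b i := by
    rw [Finset.sum_union hdisj]
    have e1 : ∑ i ∈ A, (if i ∈ A then (1 : 𝕜) else -1) • b i = ∑ i ∈ A, b i :=
      Finset.sum_congr rfl fun i hi => by simp [hi]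
    have e2 : ∑ i ∈ A', (if i ∈ A then (1 : 𝕜) else -1) • b i = -∑ i ∈ A', b i := by
      rw [← Finset.sum_neg_distrib]
      refine Finset.sum_congr rfl fun i hi => ?_
      have : i ∉ A := fun hiA => Finset.disjoint_left.1 hdisj hiA hi
      simp [this]
    rw [e1, e2]
    simp only [y]
    rw [hsumx A hAB, hsumx A' hA'B, hAcard, hA'card]
    abel
  have hynorm : ‖y‖ ^ 2 = 2 * k := by
    rw [hy, norm_sum_b_sq]
    have : ∀ i ∈ A ∪ A', ‖(if i ∈ A then (1 : 𝕜) else -1)‖ ^ 2 = 1 := by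
      intro i _
      split_ifs <;> simp
    rw [Finset.sum_congr rfl this, Finset.sum_const, Finset.card_union_of_disjoint hdisj, hAcard,
      hA'card]
    simp; ring
  have hPx : ∀ i, P m (xv b i) = if τ.symm i < m then xv b i else 0 := by
    intro i
    rw [hP]
    have : ∀ j ∈ range m, ff b (τ j) (xv b i) • xv b (τ j) =
        if τ.symm i = j then xv b i else 0 := by
      intro j _
      rw [ff_xv]
      by_cases hj : τ j = i
      · subst hj; simp
      · have : ¬ τ.symm i = j := fun e => hj (by rw [← e]; simp)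
        simp [hj, this]
    rw [Finset.sum_congr rfl this, Finset.sum_ite_eq]
    simp
  have hPy : P m y = ∑ i ∈ A, xv b i := by
    simp only [y, map_sub, map_sum, hPx]
    have e1 : ∑ i ∈ A, (if τ.symm i < m then xv b i else 0) = ∑ i ∈ A, xv b i := by
      refine Finset.sum_congr rfl fun i hi => ?_
      rw [if_pos (Finset.mem_filter.1 hi).2]
    have e2 : ∑ i ∈ A', (if τ.symm i < m then xv b i else 0) = 0 := by
      refine Finset.sum_eq_zero fun i hi => ?_
      have h1 := Finset.mem_sdiff.1 (hA'sub hi)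
      rw [if_neg]
      intro h2
      exact h1.2 (Finset.mem_filter.2 ⟨h1.1, h2⟩)
    rw [e1, e2, sub_zero]
  have h1 := norm_sum_xv_ge b k A hAB
  rw [hAcard, ← hPy] at h1
  have h2 : ‖P m y‖ ≤ C * ‖y‖ := (P m).le_of_opNorm_le (hC m) y
  have h3 : (k : ℝ) ^ 2 ≤ (C * ‖y‖) ^ 2 := by
    have : (0 : ℝ) ≤ k := Nat.cast_nonneg _
    gcongr
    linarith
  rw [mul_pow, hynorm] at h3
  have h4 : (0 : ℝ) < k := lt_of_le_of_lt (by positivity) hk
  nlinarith

end

end Pool.Agent.P.MP_514f39_an
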